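import Mathlib

open MeasureTheory Set Filter Topology
open scoped ENNReal NNReal ContDiff

namespace Pool.Agent.Results.MP_e338b6_an.LargeSupport

/-- The Euclidean plane. -/
abbrev E : Type := EuclideanSpace ℝ (Fin 2)

/-- The measure with density `f`. -/
noncomputable def dens (f : E → ℝ) : Measure E := volume.withDensity fun x => ENNReal.ofReal (f x)

/-- `f` is a smooth compactly supported probability density. -/
structure IsDensity (f : E → ℝ) : Prop where
  smooth : ContDiff ℝ ∞ f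
  compact : HasCompactSupport f
  nonneg : ∀ x, 0 ≤ f x
  total : ∫ x, f x = 1

/-- `π` is a coupling of `μ` and `ν`. -/
structure IsCoupling (μ ν : Measure E) (π : Measure (E × E)) : Prop where
  prob : IsProbabilityMeasure π
  fst : π.map Prod.fst = μ
  snd : π.map Prod.snd = ν

/-- The transport cost `∫ |x - y| dπ(x, y)`. -/
noncomputable def cost (π : Measure (E × E)) : ℝ≥0∞ := ∫⁻ p, ‖p.1 - p.2‖ₑ ∂π

/-- `π` is an optimal coupling of `μ` and `ν` for the cost `|x - y|`. -/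
def IsOptimal (μ ν : Measure E) (π : Measure (E × E)) : Prop :=
  IsCoupling μ ν π ∧ ∀ π' : Measure (E × E), IsCoupling μ ν π' → cost π ≤ cost π'

/-- The closed support of a measure: the points all of whose neighbourhoods have positive
measure. -/
def supp (π : Measure (E × E)) : Set (E × E) := {p | ∀ U ∈ 𝓝 p, 0 < π U}

/-! ### Smooth series -/

lemma weight_exists {g : E → ℝ} (hg : ContDiff ℝ ∞ g) (hc : HasCompactSupport g) (n : ℕ) :
    ∃ r : ℝ, 0 < r ∧ ∀ r' : ℝ, 0 ≤ r' → r' ≤ r → ∀ i ≤ n, ∀ x,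
      ‖iteratedFDeriv ℝ i (r' • g) x‖ ≤ (1 / 2) ^ n := by
  have h1 : ∀ i, ∃ R, ∀ x, ‖iteratedFDeriv ℝ i (fun x => g x) x‖ ≤ R := by
    intro i
    have : BddAbove (range fun x => ‖iteratedFDeriv ℝ i (fun x : E => g x) x‖) := by
      apply (hg.continuous_iteratedFDeriv
        (mod_cast le_top)).norm.bddAbove_range_of_hasCompactSupport
      apply HasCompactSupport.comp_left _ norm_zero
      apply hc.iteratedFDeriv
    rcases this with ⟨R, hR⟩
    exact ⟨R, fun x => hR (mem_range_self _)⟩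
  choose R hR using h1
  set M : ℝ := ∑ i ∈ Finset.range (n + 1), |R i| + 1 with hM
  have hMpos : 0 < M := by
    have : 0 ≤ ∑ i ∈ Finset.range (n + 1), |R i| := Finset.sum_nonneg fun i _ => abs_nonneg _
    linarith
  have IR : ∀ i ≤ n, R i ≤ M := by
    intro i hi
    have h2 : |R i| ≤ ∑ i ∈ Finset.range (n + 1), |R i| :=
      Finset.single_le_sum (f := fun i => |R i|) (fun _ _ => abs_nonneg _)
        (Finset.mem_range.2 (by omega))
    have h3 := le_abs_self (R i)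
    linarith
  refine ⟨M⁻¹ * (1 / 2) ^ n, by positivity, fun r' h0 hr' i hi x => ?_⟩
  calc ‖iteratedFDeriv ℝ i (r' • g) x‖ = ‖r' • iteratedFDeriv ℝ i g x‖ := by
        rw [iteratedFDeriv_const_smul_apply]
        exact hg.contDiffAt.of_le (mod_cast le_top)
    _ = r' * ‖iteratedFDeriv ℝ i g x‖ := by
        rw [norm_smul _ (iteratedFDeriv ℝ i g x), Real.norm_of_nonneg h0]
    _ ≤ (M⁻¹ * (1 / 2) ^ n) * M := by
        gcongr
        exact (hR i x).trans (IR i hi)
    _ = (1 / 2) ^ n := by field_simp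

lemma series_smooth (g : ℕ → E → ℝ) (hg : ∀ k, ContDiff ℝ ∞ (g k)) (r : ℕ → ℝ)
    (hr : ∀ n, ∀ i ≤ n, ∀ x, ‖iteratedFDeriv ℝ i (r n • g n) x‖ ≤ (1 / 2) ^ n) :
    ContDiff ℝ ∞ (fun x => ∑' n, (r n • g n) x) := by
  refine contDiff_tsum_of_eventually (fun k => (hg k).const_smul (r k))
    (fun k _ => summable_geometric_two) ?_
  intro i _
  simp only [Nat.cofinite_eq_atTop, Filter.eventually_atTop]
  exact ⟨i, fun n hn x => hr _ _ hn _⟩

/-! ### The geometric data -/

/-- A compact set of positive measure without rational points. -/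
lemma exists_H : ∃ H : Set ℝ, IsCompact H ∧ H ⊆ Icc 0 1 ∧ 0 < volume H ∧ ∀ q : ℚ, (q : ℝ) ∉ H := by
  have hQ : volume (Set.range ((↑) : ℚ → ℝ)) = 0 := (Set.countable_range _).measure_zero _
  obtain ⟨U, hUQ, hUo, hUv⟩ := (Set.range ((↑) : ℚ → ℝ)).exists_isOpen_lt_of_lt
    (μ := volume) (1 / 2 : ℝ≥0∞) (by rw [hQ]; norm_num)
  refine ⟨Icc 0 1 ∩ Uᶜ, isCompact_Icc.inter_right hUo.isClosed_compl, inter_subset_left, ?_,
    fun q hq => ?_⟩
  · have h1 : volume (Icc (0 : ℝ) 1) ≤ volume (Icc (0 : ℝ) 1 ∩ Uᶜ) + volume U := by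
      refine (measure_mono ?_).trans (measure_union_le _ _)
      intro x hx
      by_cases h : x ∈ U
      · exact Or.inr h
      · exact Or.inl ⟨hx, h⟩
    rw [Real.volume_Icc] at h1
    by_contra h0
    rw [not_lt, nonpos_iff_eq_zero] at h0
    rw [h0, zero_add] at h1
    have h2 := lt_of_le_of_lt h1 hUv
    norm_num at h2
  · exact hq.2 (hUQ ⟨q, rfl⟩)

/-- One step of the choice of heights. -/
lemma step {H : Set ℝ} (hH : IsCompact H) (hHQ : ∀ q : ℚ, (q : ℝ) ∉ H) {C : Set ℝ}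
    (hC : IsClosed C) (hCH : Disjoint C H) {t : ℝ} (ht : t ∈ H) {δ : ℝ} (hδ : 0 < δ) :
    ∃ h r : ℝ, 0 < r ∧ r < δ ∧ |h - t| < δ ∧ Disjoint (Icc (h - r) (h + r)) C ∧
      Disjoint (Icc (h - r) (h + r)) H := by
  have htC : t ∈ Cᶜ := fun h => Set.disjoint_left.1 hCH h ht
  have hopen : IsOpen (Cᶜ ∩ Ioo (t - δ) (t + δ)) := hC.isOpen_compl.inter isOpen_Ioo
  have htmem : t ∈ Cᶜ ∩ Ioo (t - δ) (t + δ) := ⟨htC, by constructor <;> linarith⟩
  obtain ⟨q, hq⟩ := Rat.isDenseEmbedding_coe_real.dense.exists_mem_open hopen ⟨t, htmem⟩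
  have hq2 : (q : ℝ) ∈ (Cᶜ ∩ Hᶜ) := ⟨hq.1, hHQ q⟩
  obtain ⟨r0, hr0, hball⟩ := Metric.isOpen_iff.1
    (hC.isOpen_compl.inter hH.isClosed.isOpen_compl) _ hq2
  refine ⟨q, min (r0 / 2) (δ / 2), by positivity, ?_, ?_, ?_, ?_⟩
  · exact lt_of_le_of_lt (min_le_right _ _) (by linarith)
  · rw [abs_lt]
    constructor <;> linarith [hq.2.1, hq.2.2]
  all_goals
    rw [Set.disjoint_left]
    intro x hx hx'
    have h1 : x ∈ Metric.ball (q : ℝ) r0 := by
      rw [Metric.mem_ball, Real.dist_eq, abs_lt]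
      have := min_le_left (r0 / 2) (δ / 2)
      constructor <;> linarith [hx.1, hx.2]
  · exact (hball h1).1 hx'
  · exact (hball h1).2 hx'

lemma exists_data {H : Set ℝ} (hH : IsCompact H) (hH01 : H ⊆ Icc 0 1) (hHne : H.Nonempty)
    (hHQ : ∀ q : ℚ, (q : ℝ) ∉ H) :
    ∃ a b h r : ℕ → ℝ, (∀ k, a k ∈ Icc (-1 : ℝ) 0) ∧ (∀ k, b k ∈ Icc (1 : ℝ) 2) ∧
      (∀ k, 0 < r k) ∧ (∀ k, r k < 1) ∧ (∀ k, |h k| ≤ 2) ∧
      (∀ j k, j ≠ k → Disjoint (Icc (h j - r j) (h j + r j)) (Icc (h k - r k) (h k + r k))) ∧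
      (∀ a0 ∈ Icc (-1 : ℝ) 0, ∀ b0 ∈ Icc (1 : ℝ) 2, ∀ t ∈ H, ∀ δ : ℝ, 0 < δ →
        ∃ k, |a k - a0| < δ ∧ |b k - b0| < δ ∧ |h k - t| < δ ∧ r k < δ) := by
  have hne1 : Nonempty (Icc (-1 : ℝ) 0) := ⟨⟨0, by norm_num⟩⟩
  have hne2 : Nonempty (Icc (1 : ℝ) 2) := ⟨⟨1, by norm_num⟩⟩
  have hne3 : Nonempty H := hHne.to_subtype
  obtain ⟨e, he⟩ := TopologicalSpace.exists_dense_seq (Icc (-1 : ℝ) 0 × Icc (1 : ℝ) 2 × H)
  let T : ℕ → Icc (-1 : ℝ) 0 × Icc (1 : ℝ) 2 × H := fun k => e (Nat.unpair k).1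
  have hstep : ∀ (C : {C : Set ℝ // IsClosed C ∧ Disjoint C H}) (k : ℕ), ∃ h r : ℝ,
      0 < r ∧ r < 1 / ((k : ℝ) + 1) ∧ |h - (T k).2.2| < 1 / ((k : ℝ) + 1) ∧
      Disjoint (Icc (h - r) (h + r)) C.1 ∧ Disjoint (Icc (h - r) (h + r)) H := fun C k =>
    step hH hHQ C.2.1 C.2.2 (T k).2.2.2 (by positivity)
  choose hh rr h1 h2 h3 h4 h5 using hstep
  let next : ℕ → {C : Set ℝ // IsClosed C ∧ Disjoint C H} →
      {C : Set ℝ // IsClosed C ∧ Disjoint C H} := fun k C =>
    ⟨C.1 ∪ Icc (hh C k - rr C k) (hh C k + rr C k), C.2.1.union isClosed_Icc,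
      Disjoint.union_left C.2.2 (h5 C k)⟩
  let sq : ℕ → {C : Set ℝ // IsClosed C ∧ Disjoint C H} := fun k =>
    Nat.rec ⟨∅, isClosed_empty, by simp⟩ next k
  have hsq : ∀ k, (sq (k + 1)).1 = (sq k).1 ∪
      Icc (hh (sq k) k - rr (sq k) k) (hh (sq k) k + rr (sq k) k) := fun k => rfl
  have hmono : ∀ j k, j ≤ k → (sq j).1 ⊆ (sq k).1 := by
    intro j k hjk
    induction k, hjk using Nat.le_induction with
    | base => exact subset_rfl
    | succ k _ ih => exact ih.trans (by rw [hsq]; exact subset_union_left)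
  have hlt : ∀ j k, j < k → Disjoint
      (Icc (hh (sq j) j - rr (sq j) j) (hh (sq j) j + rr (sq j) j))
      (Icc (hh (sq k) k - rr (sq k) k) (hh (sq k) k + rr (sq k) k)) := by
    intro j k hjk
    refine Disjoint.mono_left ?_ (h4 (sq k) k).symm
    refine Subset.trans ?_ (hmono (j + 1) k hjk)
    rw [hsq]
    exact subset_union_right
  have hk1 : ∀ k : ℕ, 1 / ((k : ℝ) + 1) ≤ 1 := fun k => by
    rw [div_le_one (by positivity)]
    have : (0 : ℝ) ≤ k := by positivity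
    linarith
  refine ⟨fun k => ((T k).1 : ℝ), fun k => ((T k).2.1 : ℝ), fun k => hh (sq k) k,
    fun k => rr (sq k) k, fun k => (T k).1.2, fun k => (T k).2.1.2, fun k => h1 _ _,
    fun k => lt_of_lt_of_le (h2 _ _) (hk1 k), fun k => ?_, fun j k hjk => ?_, ?_⟩
  · have h6 := h3 (sq k) k
    have h7 := hH01 (T k).2.2.2
    have h8 := hk1 k
    rw [abs_lt] at h6
    rw [abs_le]
    constructor <;> linarith [h7.1, h7.2]
  · rcases lt_or_gt_of_ne hjk with h | h
    · exact hlt j k h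
    · exact (hlt k j h).symm
  · intro a0 ha0 b0 hb0 t ht δ hδ
    obtain ⟨i, hi⟩ := he.exists_dist_lt (⟨a0, ha0⟩, ⟨b0, hb0⟩, ⟨t, ht⟩) (half_pos hδ)
    rw [Prod.dist_eq, Prod.dist_eq, max_lt_iff, max_lt_iff] at hi
    obtain ⟨m, hm⟩ := exists_nat_one_div_lt (half_pos hδ)
    refine ⟨Nat.pair i m, ?_⟩
    have hT : T (Nat.pair i m) = e i := by simp only [T, Nat.unpair_pair]
    have hkm : m ≤ Nat.pair i m := Nat.right_le_pair i m
    have hk2 : 1 / (((Nat.pair i m : ℕ) : ℝ) + 1) ≤ 1 / ((m : ℝ) + 1) := by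
      apply one_div_le_one_div_of_le (by positivity)
      have : (m : ℝ) ≤ ((Nat.pair i m : ℕ) : ℝ) := by exact_mod_cast hkm
      linarith
    have hi1 : |a0 - ((e i).1 : ℝ)| < δ / 2 := hi.1
    have hi2 : |b0 - ((e i).2.1 : ℝ)| < δ / 2 := hi.2.1
    have hi3 : |t - ((e i).2.2 : ℝ)| < δ / 2 := hi.2.2
    have h6 := h3 (sq (Nat.pair i m)) (Nat.pair i m)
    have h7 := h2 (sq (Nat.pair i m)) (Nat.pair i m)
    simp only [hT] at h6 ⊢
    refine ⟨?_, ?_, ?_, ?_⟩
    · rw [abs_sub_comm]; linarith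
    · rw [abs_sub_comm]; linarith
    · have h8 := abs_lt.1 hi3
      have h9 := abs_lt.1 h6
      rw [abs_lt]
      constructor <;> linarith [h8.1, h8.2, h9.1, h9.2]
    · linarith

/-! ### Couplings of the two families of bumps -/

/-- The configuration: centres `(a_k, h_k)` and `(b_k, h_k)`, radii and profiles. -/
structure Cfg where
  a : ℕ → ℝ
  b : ℕ → ℝ
  h : ℕ → ℝ
  r : ℕ → ℝ
  F : ℕ → E → ℝ≥0∞
  ha : ∀ k, a k ∈ Icc (-1 : ℝ) 0
  hb : ∀ k, b k ∈ Icc (1 : ℝ) 2
  hr0 : ∀ k, 0 < r k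
  hr1 : ∀ k, r k < 1
  hh : ∀ k, |h k| ≤ 2
  hdisj : ∀ j k, j ≠ k → Disjoint (Icc (h j - r j) (h j + r j)) (Icc (h k - r k) (h k + r k))
  hF : ∀ k, Measurable (F k)
  hFsupp : ∀ k z, F k z ≠ 0 ↔ ‖z‖ < r k
  hsum : ∑' k, ∫⁻ z, F k z = 1

namespace Cfg

variable (c : Cfg)

/-- left centres -/
noncomputable def x (k : ℕ) : E := !₂[c.a k, c.h k]

/-- right centres -/
noncomputable def y (k : ℕ) : E := !₂[c.b k, c.h k]

/-- the bumps on the left -/
noncomputable def muk (k : ℕ) : Measure E := volume.withDensity fun z => c.F k (z - c.x k)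

/-- the bumps on the right -/
noncomputable def nuk (k : ℕ) : Measure E := volume.withDensity fun z => c.F k (z - c.y k)

/-- the left measure -/
noncomputable def mu : Measure E := Measure.sum c.muk

/-- the right measure -/
noncomputable def nu : Measure E := Measure.sum c.nuk

lemma shift_map {F : E → ℝ≥0∞} (_hF : Measurable F) (x v : E) :
    (volume.withDensity fun z => F (z - x)).map (fun z => z + v) =
      volume.withDensity fun z => F (z - (x + v)) := by
  ext s hs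
  have hpre : MeasurableSet ((fun z : E => z + v) ⁻¹' s) := (measurable_id.add_const v) hs
  rw [Measure.map_apply (by fun_prop) hs, withDensity_apply _ hs, withDensity_apply _ hpre,
    ← lintegral_indicator hs, ← lintegral_indicator hpre,
    ← lintegral_add_right_eq_self (s.indicator fun z => F (z - (x + v))) v]
  refine lintegral_congr fun z => ?_
  by_cases hz : z + v ∈ s
  · rw [indicator_of_mem hz, indicator_of_mem (show z ∈ (fun z : E => z + v) ⁻¹' s from hz)]
    congr 1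
    abel
  · rw [indicator_of_notMem hz,
      indicator_of_notMem (show z ∉ (fun z : E => z + v) ⁻¹' s from hz)]

lemma map_muk (k : ℕ) : (c.muk k).map (fun z => z + (c.y k - c.x k)) = c.nuk k := by
  unfold muk nuk
  rw [shift_map (c.hF k)]
  congr 2
  funext z
  congr 1
  abel

lemma total (p : ℕ → E) :
    (Measure.sum fun k => volume.withDensity fun z => c.F k (z - p k)) univ = 1 := by
  rw [Measure.sum_apply _ MeasurableSet.univ, ← c.hsum]
  refine tsum_congr fun k => ?_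
  rw [withDensity_apply _ MeasurableSet.univ, setLIntegral_univ]
  exact lintegral_sub_right_eq_self (fun z => c.F k z) (p k)

lemma ae_bump (p : ℕ → E) :
    ∀ᵐ z ∂(Measure.sum fun k => volume.withDensity fun z => c.F k (z - p k)),
      ∃ k, ‖z - p k‖ < c.r k := by
  rw [Measure.ae_sum_iff]
  intro k
  have h1 : ∀ᵐ z ∂(volume.withDensity fun z => c.F k (z - p k)), c.F k (z - p k) ≠ 0 := by
    have hFm : Measurable fun z => c.F k (z - p k) := (c.hF k).comp (measurable_id.sub_const _)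
    rw [ae_withDensity_iff hFm]
    exact Eventually.of_forall fun z hz => hz
  filter_upwards [h1] with z hz
  exact ⟨k, (c.hFsupp k _).1 hz⟩

instance : IsProbabilityMeasure c.mu := ⟨c.total c.x⟩

instance : IsProbabilityMeasure c.nu := ⟨c.total c.y⟩

lemma norm_x (k : ℕ) : ‖c.x k‖ ≤ 4 := by
  rw [EuclideanSpace.norm_eq, Fin.sum_univ_two, Real.sqrt_le_left (by norm_num)]
  have h1 := c.ha k
  have h2 := abs_le.1 (c.hh k)
  simp only [x, Real.norm_eq_abs, sq_abs, Matrix.cons_val_zero, Matrix.cons_val_one]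
  nlinarith [h1.1, h1.2, h2.1, h2.2]

lemma norm_y (k : ℕ) : ‖c.y k‖ ≤ 4 := by
  rw [EuclideanSpace.norm_eq, Fin.sum_univ_two, Real.sqrt_le_left (by norm_num)]
  have h1 := c.hb k
  have h2 := abs_le.1 (c.hh k)
  simp only [y, Real.norm_eq_abs, sq_abs, Matrix.cons_val_zero, Matrix.cons_val_one]
  nlinarith [h1.1, h1.2, h2.1, h2.2]

lemma ae_mu : ∀ᵐ z ∂c.mu, ∃ k, ‖z - c.x k‖ < c.r k := c.ae_bump c.x

lemma ae_nu : ∀ᵐ z ∂c.nu, ∃ k, ‖z - c.y k‖ < c.r k := c.ae_bump c.y

lemma bound_mu : ∀ᵐ z ∂c.mu, ‖z‖ ≤ 5 := by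
  filter_upwards [c.ae_mu] with z hz
  obtain ⟨k, hk⟩ := hz
  have h1 : ‖z‖ ≤ ‖z - c.x k‖ + ‖c.x k‖ := by
    have := norm_add_le (z - c.x k) (c.x k)
    simpa using this
  have h2 := c.norm_x k
  have h3 := c.hr1 k
  linarith

lemma bound_nu : ∀ᵐ z ∂c.nu, ‖z‖ ≤ 5 := by
  filter_upwards [c.ae_nu] with z hz
  obtain ⟨k, hk⟩ := hz
  have h1 : ‖z‖ ≤ ‖z - c.y k‖ + ‖c.y k‖ := by
    have := norm_add_le (z - c.y k) (c.y k)
    simpa using this
  have h2 := c.norm_y k
  have h3 := c.hr1 k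
  linarith

lemma coord_le (z : E) (i : Fin 2) : |z i| ≤ ‖z‖ := by
  have := PiLp.norm_apply_le z i
  rwa [Real.norm_eq_abs] at this

variable {c}

lemma ae_fst {π : Measure (E × E)} (hπ : IsCoupling c.mu c.nu π) {P : E → Prop}
    (h : ∀ᵐ z ∂c.mu, P z) : ∀ᵐ p ∂π, P p.1 := by
  have h1 : ∀ᵐ z ∂(π.map Prod.fst), P z := by rw [hπ.fst]; exact h
  exact ae_of_ae_map measurable_fst.aemeasurable h1

lemma ae_snd {π : Measure (E × E)} (hπ : IsCoupling c.mu c.nu π) {P : E → Prop}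
    (h : ∀ᵐ z ∂c.nu, P z) : ∀ᵐ p ∂π, P p.2 := by
  have h1 : ∀ᵐ z ∂(π.map Prod.snd), P z := by rw [hπ.snd]; exact h
  exact ae_of_ae_map measurable_snd.aemeasurable h1

/-- The integral of `y₀ - x₀` does not depend on the coupling. -/
lemma phi_integral {π : Measure (E × E)} (hπ : IsCoupling c.mu c.nu π) :
    Integrable (fun p : E × E => p.2 0 - p.1 0) π ∧
    ∫ p, (p.2 0 - p.1 0) ∂π = ∫ z, z 0 ∂c.nu - ∫ z, z 0 ∂c.mu := by
  have hprob := hπ.prob
  have h1 : Integrable (fun p : E × E => p.1 0) π := by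
    refine Integrable.of_bound (C := 5) (Measurable.aestronglyMeasurable (by fun_prop)) ?_
    filter_upwards [ae_fst hπ c.bound_mu] with p hp
    exact (coord_le p.1 0).trans hp
  have h2 : Integrable (fun p : E × E => p.2 0) π := by
    refine Integrable.of_bound (C := 5) (Measurable.aestronglyMeasurable (by fun_prop)) ?_
    filter_upwards [ae_snd hπ c.bound_nu] with p hp
    exact (coord_le p.2 0).trans hp
  refine ⟨h2.sub h1, ?_⟩
  rw [integral_sub h2 h1, ← hπ.fst, ← hπ.snd, integral_map measurable_fst.aemeasurable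
    (Measurable.aestronglyMeasurable (by fun_prop)), integral_map measurable_snd.aemeasurable
    (Measurable.aestronglyMeasurable (by fun_prop))]

lemma dist_integrable {π : Measure (E × E)} (hπ : IsCoupling c.mu c.nu π) :
    Integrable (fun p : E × E => p.1 - p.2) π := by
  have hprob := hπ.prob
  refine Integrable.of_bound (C := 10) (Measurable.aestronglyMeasurable (by fun_prop)) ?_
  filter_upwards [ae_fst hπ c.bound_mu, ae_snd hπ c.bound_nu] with p h1 h2
  have := norm_sub_le p.1 p.2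
  linarith

lemma cost_eq {π : Measure (E × E)} (hπ : IsCoupling c.mu c.nu π) :
    cost π = ENNReal.ofReal (∫ p, ‖p.1 - p.2‖ ∂π) := by
  unfold cost
  rw [ofReal_integral_norm_eq_lintegral_enorm (dist_integrable hπ)]

lemma phi_le (p : E × E) : p.2 0 - p.1 0 ≤ ‖p.1 - p.2‖ := by
  have h1 := coord_le (p.1 - p.2) 0
  rw [PiLp.sub_apply, abs_sub_comm] at h1
  exact (le_abs_self _).trans h1

lemma kappa_le {π : Measure (E × E)} (hπ : IsCoupling c.mu c.nu π) :
    ∫ z, z 0 ∂c.nu - ∫ z, z 0 ∂c.mu ≤ ∫ p, ‖p.1 - p.2‖ ∂π := by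
  rw [← (phi_integral hπ).2]
  exact integral_mono (phi_integral hπ).1 (dist_integrable hπ).norm phi_le

variable (c)

/-- The horizontal translation plan. -/
noncomputable def pi0 : Measure (E × E) :=
  Measure.sum fun k => (c.muk k).map fun z => (z, z + (c.y k - c.x k))

lemma pi0_coupling : IsCoupling c.mu c.nu c.pi0 := by
  have hf : c.pi0.map Prod.fst = c.mu := by
    unfold pi0 mu
    rw [Measure.map_sum measurable_fst.aemeasurable]
    congr 1
    funext k
    rw [Measure.map_map measurable_fst (by fun_prop)]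
    have : (Prod.fst ∘ fun z : E => (z, z + (c.y k - c.x k))) = id := rfl
    rw [this, Measure.map_id]
  have hs : c.pi0.map Prod.snd = c.nu := by
    unfold pi0 nu
    rw [Measure.map_sum measurable_snd.aemeasurable]
    congr 1
    funext k
    rw [Measure.map_map measurable_snd (by fun_prop), ← c.map_muk k]
    rfl
  refine ⟨⟨?_⟩, hf, hs⟩
  have h1 : c.pi0.map Prod.fst univ = 1 := by rw [hf]; exact measure_univ
  rwa [Measure.map_apply measurable_fst MeasurableSet.univ, preimage_univ] at h1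

lemma pi0_cost : ∫ p, ‖p.1 - p.2‖ ∂c.pi0 = ∫ z, z 0 ∂c.nu - ∫ z, z 0 ∂c.mu := by
  rw [← (phi_integral c.pi0_coupling).2]
  refine integral_congr_ae ?_
  have h1 : ∀ᵐ p ∂c.pi0, ∃ k, p.2 = p.1 + (c.y k - c.x k) := by
    unfold pi0
    rw [Measure.ae_sum_iff]
    intro k
    have h2 : ∀ᵐ p ∂((c.muk k).map fun z => (z, z + (c.y k - c.x k))),
        p.2 = p.1 + (c.y k - c.x k) := by
      rw [ae_map_iff (by fun_prop) (measurableSet_eq_fun measurable_snd
        (measurable_fst.add_const _))]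
      exact Eventually.of_forall fun z => rfl
    filter_upwards [h2] with p hp using ⟨k, hp⟩
  filter_upwards [h1] with p hp
  obtain ⟨k, hk⟩ := hp
  have h3 : p.1 - p.2 = c.x k - c.y k := by rw [hk]; abel
  have h4 := c.ha k
  have h5 := c.hb k
  have h6 : ‖c.x k - c.y k‖ = c.b k - c.a k := by
    rw [EuclideanSpace.norm_eq, Fin.sum_univ_two]
    simp only [x, y, Real.norm_eq_abs, sq_abs, PiLp.sub_apply, Matrix.cons_val_zero,
      Matrix.cons_val_one, sub_self]
    rw [zero_pow two_ne_zero, add_zero, Real.sqrt_sq_eq_abs, abs_of_nonpos]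
    · ring
    · linarith [h4.2, h5.1]
  rw [h3, h6, hk]
  simp [x, y]

lemma pi0_optimal : IsOptimal c.mu c.nu c.pi0 := by
  refine ⟨c.pi0_coupling, fun π' hπ' => ?_⟩
  rw [cost_eq c.pi0_coupling, cost_eq hπ', c.pi0_cost]
  exact ENNReal.ofReal_le_ofReal (kappa_le hπ')

variable {c}

/-- Optimal plans move mass horizontally. -/
lemma horizontal {π : Measure (E × E)} (hπ : IsOptimal c.mu c.nu π) :
    ∀ᵐ p ∂π, p.1 1 = p.2 1 := by
  have h1 := hπ.2 _ c.pi0_coupling
  rw [cost_eq hπ.1, cost_eq c.pi0_coupling, c.pi0_cost] at h1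
  have h0 := kappa_le hπ.1
  have hpos : 0 ≤ ∫ z, z 0 ∂c.nu - ∫ z, z 0 ∂c.mu := by
    rw [← c.pi0_cost]
    exact integral_nonneg fun p => norm_nonneg _
  rw [ENNReal.ofReal_le_ofReal_iff hpos] at h1
  have heq : ∫ p, (‖p.1 - p.2‖ - (p.2 0 - p.1 0)) ∂π = 0 := by
    rw [integral_sub (dist_integrable hπ.1).norm (phi_integral hπ.1).1, (phi_integral hπ.1).2]
    linarith
  have h2 := (integral_eq_zero_iff_of_nonneg (fun p => sub_nonneg.2 (phi_le p))
    ((dist_integrable hπ.1).norm.sub (phi_integral hπ.1).1)).1 heq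
  filter_upwards [h2] with p hp
  have h3 : ‖p.1 - p.2‖ = p.2 0 - p.1 0 := by
    have : ‖p.1 - p.2‖ - (p.2 0 - p.1 0) = 0 := hp
    linarith
  have h4 : ‖p.1 - p.2‖ ^ 2 = (p.1 0 - p.2 0) ^ 2 + (p.1 1 - p.2 1) ^ 2 := by
    rw [EuclideanSpace.norm_sq_eq, Fin.sum_univ_two]
    simp only [PiLp.sub_apply, Real.norm_eq_abs, sq_abs]
  rw [h3] at h4
  have h5 : (p.1 1 - p.2 1) ^ 2 = 0 := by nlinarith
  have h6 : p.1 1 - p.2 1 = 0 := by simpa using h5
  linarith

/-- Every optimal plan charges the product of corresponding bumps. -/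
lemma charge {π : Measure (E × E)} (hπ : IsOptimal c.mu c.nu π) (k : ℕ) :
    0 < π (Metric.ball (c.x k) (c.r k) ×ˢ Metric.ball (c.y k) (c.r k)) := by
  have h1 : 0 < c.mu (Metric.ball (c.x k) (c.r k)) := by
    have h2 : c.muk k (Metric.ball (c.x k) (c.r k)) ≤ c.mu (Metric.ball (c.x k) (c.r k)) :=
      Measure.le_sum c.muk k _
    refine lt_of_lt_of_le ?_ h2
    rw [pos_iff_ne_zero]
    unfold muk
    have hFm : Measurable fun z => c.F k (z - c.x k) := (c.hF k).comp (measurable_id.sub_const _)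
    rw [Ne, withDensity_apply_eq_zero hFm]
    have h3 : {z | c.F k (z - c.x k) ≠ 0} ∩ Metric.ball (c.x k) (c.r k) =
        Metric.ball (c.x k) (c.r k) := by
      ext z
      constructor
      · exact fun h => h.2
      · intro h
        refine ⟨?_, h⟩
        rw [Set.mem_ofPred_eq, c.hFsupp, ← dist_eq_norm]
        exact h
    rw [h3]
    exact (Metric.measure_ball_pos _ _ (c.hr0 k)).ne'
  have h4 : c.mu (Metric.ball (c.x k) (c.r k)) =
      π (Prod.fst ⁻¹' Metric.ball (c.x k) (c.r k)) := by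
    rw [← hπ.1.fst, Measure.map_apply measurable_fst measurableSet_ball]
  rw [h4] at h1
  refine lt_of_lt_of_le h1 (measure_mono_ae ?_)
  filter_upwards [horizontal hπ, ae_snd hπ.1 c.ae_nu] with p hp1 hp2 hp3
  obtain ⟨j, hj⟩ := hp2
  have hx : ‖p.1 - c.x k‖ < c.r k := by
    rw [← dist_eq_norm]; exact hp3
  have e1 : |p.1 1 - c.h k| < c.r k := by
    have := coord_le (p.1 - c.x k) 1
    simp only [PiLp.sub_apply, x, Matrix.cons_val_one] at this
    exact lt_of_le_of_lt this hx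
  have e2 : |p.2 1 - c.h j| < c.r j := by
    have := coord_le (p.2 - c.y j) 1
    simp only [PiLp.sub_apply, y, Matrix.cons_val_one] at this
    exact lt_of_le_of_lt this hj
  have hjk : j = k := by
    by_contra hne
    have m1 : p.1 1 ∈ Icc (c.h j - c.r j) (c.h j + c.r j) := by
      rw [hp1]
      rw [abs_lt] at e2
      constructor <;> linarith [e2.1, e2.2]
    have m2 : p.1 1 ∈ Icc (c.h k - c.r k) (c.h k + c.r k) := by
      rw [abs_lt] at e1
      constructor <;> linarith [e1.1, e1.2]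
    exact Set.disjoint_left.1 (c.hdisj j k hne) m1 m2
  subst hjk
  refine ⟨hp3, ?_⟩
  rw [Metric.mem_ball, dist_eq_norm]
  exact hj

variable (c)

/-- The supports of the optimal plans contain a large set. -/
lemma mem_supp {H : Set ℝ}
    (hd : ∀ a0 ∈ Icc (-1 : ℝ) 0, ∀ b0 ∈ Icc (1 : ℝ) 2, ∀ t ∈ H, ∀ δ : ℝ, 0 < δ →
        ∃ k, |c.a k - a0| < δ ∧ |c.b k - b0| < δ ∧ |c.h k - t| < δ ∧ c.r k < δ)
    {π : Measure (E × E)} (hπ : IsOptimal c.mu c.nu π) {a0 b0 t : ℝ}
    (ha0 : a0 ∈ Icc (-1 : ℝ) 0) (hb0 : b0 ∈ Icc (1 : ℝ) 2) (ht : t ∈ H) :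
    ((!₂[a0, t], !₂[b0, t]) : E × E) ∈ supp π := by
  intro U hU
  obtain ⟨ε, hε, hball⟩ := Metric.mem_nhds_iff.1 hU
  obtain ⟨k, h1, h2, h3, h4⟩ := hd a0 ha0 b0 hb0 t ht (ε / 4) (by positivity)
  refine lt_of_lt_of_le (charge hπ k) (measure_mono ?_)
  refine Subset.trans ?_ hball
  rw [← ball_prod_same]
  have key : ∀ (s s' t' : ℝ), |s - s'| < ε / 4 → |c.h k - t'| < ε / 4 →
      Metric.ball (!₂[s, c.h k] : E) (c.r k) ⊆ Metric.ball (!₂[s', t'] : E) ε := by
    intro s s' t' hs ht'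
    apply Metric.ball_subset_ball'
    have h5 : dist (!₂[s, c.h k] : E) (!₂[s', t'] : E) ≤ ε / 2 := by
      rw [EuclideanSpace.dist_eq, Fin.sum_univ_two, Real.sqrt_le_left (by positivity)]
      simp only [Real.dist_eq, sq_abs, Matrix.cons_val_zero, Matrix.cons_val_one]
      rw [abs_lt] at hs ht'
      nlinarith [hs.1, hs.2, ht'.1, ht'.2]
    linarith
  exact Set.prod_mono (key _ _ _ h1 h3) (key _ _ _ h2 h3)

lemma dim_supp {H : Set ℝ} (hH : 0 < volume H)
    (hd : ∀ a0 ∈ Icc (-1 : ℝ) 0, ∀ b0 ∈ Icc (1 : ℝ) 2, ∀ t ∈ H, ∀ δ : ℝ, 0 < δ →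
        ∃ k, |c.a k - a0| < δ ∧ |c.b k - b0| < δ ∧ |c.h k - t| < δ ∧ c.r k < δ)
    {π : Measure (E × E)} (hπ : IsOptimal c.mu c.nu π) : 3 ≤ dimH (supp π) := by
  let P : E × E → (Fin 3 → ℝ) := fun p => ![p.1 0, p.2 0, p.1 1]
  have hP : LipschitzWith 1 P := by
    refine LipschitzWith.of_dist_le_mul fun p q => ?_
    rw [NNReal.coe_one, one_mul, dist_pi_le_iff dist_nonneg]
    have e1 : ∀ i, dist (p.1 i) (q.1 i) ≤ dist p q := fun i => by
      have h1 : dist (p.1 i) (q.1 i) ≤ dist p.1 q.1 := by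
        rw [dist_eq_norm, dist_eq_norm, ← PiLp.sub_apply]
        exact PiLp.norm_apply_le _ i
      exact h1.trans (le_max_left _ _)
    have e2 : ∀ i, dist (p.2 i) (q.2 i) ≤ dist p q := fun i => by
      have h1 : dist (p.2 i) (q.2 i) ≤ dist p.2 q.2 := by
        rw [dist_eq_norm, dist_eq_norm, ← PiLp.sub_apply]
        exact PiLp.norm_apply_le _ i
      exact h1.trans (le_max_right _ _)
    intro i
    fin_cases i
    · exact e1 0
    · exact e2 0
    · exact e1 1
  let T : Set (Fin 3 → ℝ) := Set.pi univ ![Icc (-1) 0, Icc 1 2, H]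
  have hT : volume T ≠ 0 := by
    rw [volume_pi_pi, Fin.prod_univ_three]
    simp only [Matrix.cons_val_zero, Matrix.cons_val_one, Matrix.cons_val, Real.volume_Icc]
    norm_num
    exact hH.ne'
  have hsub : T ⊆ P '' supp π := by
    intro z hz
    have z0 := hz 0 (mem_univ _)
    have z1 := hz 1 (mem_univ _)
    have z2 := hz 2 (mem_univ _)
    refine ⟨_, c.mem_supp hd hπ z0 z1 z2, ?_⟩
    funext i
    fin_cases i <;> rfl
  have h1 : (3 : ℝ≥0∞) ≤ dimH T := by
    have h2 := le_dimH_of_hausdorffMeasure_ne_zero (s := T) (d := 3) (by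
      have h3 := hausdorffMeasure_pi_real (ι := Fin 3)
      rw [Fintype.card_fin] at h3
      norm_num at h3 ⊢
      rw [h3]
      exact hT)
    exact_mod_cast h2
  exact h1.trans ((dimH_mono hsub).trans (hP.dimH_image_le _))

end Cfg

/-! ### The densities -/

/-- The bump at the origin of radius `ρ`. -/
noncomputable def bump (ρ : {ρ : ℝ // 0 < ρ}) : ContDiffBump (0 : E) :=
  ⟨ρ.1 / 2, ρ.1, half_pos ρ.2, half_lt_self ρ.2⟩

lemma bump_shift_smooth (ρ : {ρ : ℝ // 0 < ρ}) (p : E) :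
    ContDiff ℝ ∞ fun z : E => bump ρ (z - p) :=
  (bump ρ).contDiff.comp (contDiff_id.sub contDiff_const)

lemma bump_shift_compact (ρ : {ρ : ℝ // 0 < ρ}) (p : E) :
    HasCompactSupport fun z : E => bump ρ (z - p) := by
  refine HasCompactSupport.intro (isCompact_closedBall p ρ.1) fun z hz => ?_
  have h1 : z - p ∉ Function.support (bump ρ) := by
    rw [(bump ρ).support_eq]
    intro h
    apply hz
    rw [Metric.mem_ball, dist_zero_right] at h
    rw [Metric.mem_closedBall, dist_eq_norm]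
    exact le_of_lt h
  simpa using h1

/-- The weighted series of bumps with centres `p`. -/
noncomputable def ser (r : ℕ → {ρ : ℝ // 0 < ρ}) (w : ℕ → ℝ) (p : ℕ → E) (z : E) : ℝ :=
  ∑' k, (w k • fun z : E => bump (r k) (z - p k)) z

/-- The weights are admissible for the centres `p`. -/
def Adm (r : ℕ → {ρ : ℝ // 0 < ρ}) (w : ℕ → ℝ) (p : ℕ → E) : Prop :=
  ∀ n, ∀ i ≤ n, ∀ x, ‖iteratedFDeriv ℝ i (w n • fun z : E => bump (r n) (z - p n)) x‖ ≤ (1 / 2) ^ n

lemma term_nonneg {r : ℕ → {ρ : ℝ // 0 < ρ}} {w : ℕ → ℝ} {p : ℕ → E} (hw : ∀ k, 0 < w k)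
    (k : ℕ) (z : E) : 0 ≤ (w k • fun z : E => bump (r k) (z - p k)) z :=
  mul_nonneg (hw k).le (bump (r k)).nonneg

lemma term_le {r : ℕ → {ρ : ℝ // 0 < ρ}} {w : ℕ → ℝ} {p : ℕ → E}
    (ha : Adm r w p) (k : ℕ) (z : E) :
    (w k • fun z : E => bump (r k) (z - p k)) z ≤ (1 / 2) ^ k := by
  have h1 := ha k 0 (Nat.zero_le _) z
  rw [norm_iteratedFDeriv_zero] at h1
  exact (le_abs_self _).trans h1

lemma ser_summable {r : ℕ → {ρ : ℝ // 0 < ρ}} {w : ℕ → ℝ} {p : ℕ → E} (hw : ∀ k, 0 < w k)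
    (ha : Adm r w p) (z : E) : Summable fun k => (w k • fun z : E => bump (r k) (z - p k)) z :=
  Summable.of_nonneg_of_le (fun k => term_nonneg hw k z) (fun k => term_le ha k z)
    summable_geometric_two

lemma ser_nonneg {r : ℕ → {ρ : ℝ // 0 < ρ}} {w : ℕ → ℝ} {p : ℕ → E} (hw : ∀ k, 0 < w k)
    (z : E) : 0 ≤ ser r w p z := tsum_nonneg fun k => term_nonneg hw k z

lemma ser_le {r : ℕ → {ρ : ℝ // 0 < ρ}} {w : ℕ → ℝ} {p : ℕ → E} (hw : ∀ k, 0 < w k)
    (ha : Adm r w p) (z : E) : ser r w p z ≤ 2 := by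
  rw [← tsum_geometric_two]
  exact (ser_summable hw ha z).tsum_le_tsum (fun k => term_le ha k z) summable_geometric_two

lemma ser_zero {r : ℕ → {ρ : ℝ // 0 < ρ}} (hr : ∀ k, (r k).1 < 1) {w : ℕ → ℝ} {p : ℕ → E}
    (hp : ∀ k, ‖p k‖ ≤ 4) {z : E} (hz : z ∉ Metric.closedBall (0 : E) 5) : ser r w p z = 0 := by
  unfold ser
  have : ∀ k, (w k • fun z : E => bump (r k) (z - p k)) z = 0 := by
    intro k
    have h1 : z - p k ∉ Function.support (bump (r k)) := by
      rw [(bump (r k)).support_eq]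
      intro h
      apply hz
      rw [Metric.mem_ball, dist_zero_right] at h
      rw [Metric.mem_closedBall, dist_zero_right]
      have h2 : ‖z - p k‖ < (r k).1 := h
      have h3 : ‖z‖ ≤ ‖z - p k‖ + ‖p k‖ := by
        have := norm_add_le (z - p k) (p k)
        simpa using this
      have h4 := hp k
      have h5 := hr k
      linarith
    have h2 : bump (r k) (z - p k) = 0 := by simpa using h1
    show w k * bump (r k) (z - p k) = 0
    rw [h2, mul_zero]
  simp only [this, tsum_zero]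

/-- The mass of the series of bumps. -/
noncomputable def mass (r : ℕ → {ρ : ℝ // 0 < ρ}) (w : ℕ → ℝ) : ℝ≥0∞ :=
  ∑' k, ∫⁻ z : E, ENNReal.ofReal (w k * bump (r k) z)

lemma lintegral_ser {r : ℕ → {ρ : ℝ // 0 < ρ}} {w : ℕ → ℝ} {p : ℕ → E} (hw : ∀ k, 0 < w k)
    (ha : Adm r w p) : ∫⁻ z, ENNReal.ofReal (ser r w p z) = mass r w := by
  unfold ser mass
  simp_rw [ENNReal.ofReal_tsum_of_nonneg (fun k => term_nonneg hw k _) (ser_summable hw ha _)]
  rw [lintegral_tsum]
  · refine tsum_congr fun k => ?_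
    exact lintegral_sub_right_eq_self (fun z => ENNReal.ofReal (w k * bump (r k) z)) (p k)
  · intro k
    refine (Measurable.ennreal_ofReal ?_).aemeasurable
    exact ((bump_shift_smooth (r k) (p k)).continuous.measurable).const_smul (w k)

lemma mass_ne_top {r : ℕ → {ρ : ℝ // 0 < ρ}} (hr : ∀ k, (r k).1 < 1) {w : ℕ → ℝ} {p : ℕ → E}
    (hp : ∀ k, ‖p k‖ ≤ 4) (hw : ∀ k, 0 < w k) (ha : Adm r w p) : mass r w ≠ ⊤ := by
  rw [← lintegral_ser hw ha]
  refine ne_top_of_le_ne_top (b := 2 * volume (Metric.closedBall (0 : E) 5)) ?_ ?_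
  · exact ENNReal.mul_ne_top (by norm_num) (measure_closedBall_lt_top).ne
  · rw [← setLIntegral_const, ← lintegral_indicator measurableSet_closedBall]
    refine lintegral_mono fun z => ?_
    by_cases hz : z ∈ Metric.closedBall (0 : E) 5
    · rw [indicator_of_mem hz]
      calc ENNReal.ofReal (ser r w p z) ≤ ENNReal.ofReal 2 :=
            ENNReal.ofReal_le_ofReal (ser_le hw ha z)
        _ = 2 := by norm_num
    · rw [ser_zero hr hp hz]
      simp

lemma mass_ne_zero {r : ℕ → {ρ : ℝ // 0 < ρ}} {w : ℕ → ℝ} (hw : ∀ k, 0 < w k) :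
    mass r w ≠ 0 := by
  intro h0
  unfold mass at h0
  rw [ENNReal.tsum_eq_zero] at h0
  have h1 := h0 0
  have hm : Measurable fun z : E => ENNReal.ofReal (w 0 * bump (r 0) z) :=
    ((bump (r 0)).continuous.measurable.const_mul _).ennreal_ofReal
  rw [lintegral_eq_zero_iff hm] at h1
  have h2 : volume (Metric.ball (0 : E) (r 0).1) ≤
      volume {z : E | ENNReal.ofReal (w 0 * bump (r 0) z) ≠ 0} := by
    refine measure_mono fun z hz => ?_
    have h3 : z ∈ Function.support (bump (r 0)) := by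
      rw [(bump (r 0)).support_eq]; exact hz
    rw [Set.mem_ofPred_eq, Ne, ENNReal.ofReal_eq_zero, not_le]
    exact mul_pos (hw 0) (lt_of_le_of_ne (bump (r 0)).nonneg (Ne.symm h3))
  have h3 : volume {z : E | ENNReal.ofReal (w 0 * bump (r 0) z) ≠ 0} = 0 := h1
  rw [h3] at h2
  exact absurd h2 (not_le.2 (Metric.measure_ball_pos _ _ (r 0).2))

/-- The normalised profiles. -/
noncomputable def prof (r : ℕ → {ρ : ℝ // 0 < ρ}) (w : ℕ → ℝ) (k : ℕ) (z : E) : ℝ≥0∞ :=
  ENNReal.ofReal ((mass r w).toReal⁻¹ * (w k * bump (r k) z))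

lemma dens_ser {r : ℕ → {ρ : ℝ // 0 < ρ}} {w : ℕ → ℝ} {p : ℕ → E} (hw : ∀ k, 0 < w k)
    (ha : Adm r w p) :
    dens (fun z => (mass r w).toReal⁻¹ * ser r w p z) =
      Measure.sum fun k => volume.withDensity fun z => prof r w k (z - p k) := by
  unfold dens
  rw [← withDensity_tsum]
  · congr 1
    funext z
    unfold ser
    beta_reduce
    rw [← tsum_mul_left, ENNReal.ofReal_tsum_of_nonneg
      (fun k => mul_nonneg (inv_nonneg.2 ENNReal.toReal_nonneg) (term_nonneg hw k _))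
      ((ser_summable hw ha _).mul_left _), tsum_apply]
    · rfl
    · exact Pi.summable.2 fun z => ENNReal.summable
  · intro k
    have h1 : Measurable fun z : E => prof r w k (z - p k) := by
      unfold prof
      refine Measurable.ennreal_ofReal ?_
      exact (((bump_shift_smooth (r k) (p k)).continuous.measurable).const_mul (w k)).const_mul _
    exact h1

lemma prof_sum {r : ℕ → {ρ : ℝ // 0 < ρ}} {w : ℕ → ℝ} (hw : ∀ k, 0 < w k)
    (hm : mass r w ≠ ⊤) : ∑' k, ∫⁻ z, prof r w k z = 1 := by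
  have h1 : ∀ k, ∫⁻ z, prof r w k z =
      ENNReal.ofReal ((mass r w).toReal⁻¹) * ∫⁻ z : E, ENNReal.ofReal (w k * bump (r k) z) := by
    intro k
    rw [← lintegral_const_mul]
    · refine lintegral_congr fun z => ?_
      unfold prof
      rw [ENNReal.ofReal_mul (inv_nonneg.2 ENNReal.toReal_nonneg)]
    · exact ((bump (r k)).continuous.measurable.const_mul _).ennreal_ofReal
  simp_rw [h1]
  rw [ENNReal.tsum_mul_left]
  change ENNReal.ofReal ((mass r w).toReal⁻¹) * mass r w = 1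
  rw [ENNReal.ofReal_inv_of_pos (ENNReal.toReal_pos (mass_ne_zero hw) hm), ENNReal.ofReal_toReal hm]
  exact ENNReal.inv_mul_cancel (mass_ne_zero hw) hm

lemma isDensity_ser {r : ℕ → {ρ : ℝ // 0 < ρ}} (hr : ∀ k, (r k).1 < 1) {w : ℕ → ℝ} {p : ℕ → E}
    (hp : ∀ k, ‖p k‖ ≤ 4) (hw : ∀ k, 0 < w k) (ha : Adm r w p) :
    IsDensity (fun z => (mass r w).toReal⁻¹ * ser r w p z) where
  smooth := by
    refine contDiff_const.mul ?_
    exact series_smooth (fun k z => bump (r k) (z - p k))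
      (fun k => bump_shift_smooth (r k) (p k)) w ha
  compact := HasCompactSupport.intro (isCompact_closedBall (0 : E) 5) fun z hz => by
    rw [ser_zero hr hp hz, mul_zero]
  nonneg := fun z => mul_nonneg (inv_nonneg.2 ENNReal.toReal_nonneg) (ser_nonneg hw z)
  total := by
    have hc : ContDiff ℝ ∞ (ser r w p) := series_smooth (fun k z => bump (r k) (z - p k))
      (fun k => bump_shift_smooth (r k) (p k)) w ha
    rw [integral_const_mul, integral_eq_lintegral_of_nonneg_ae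
      (Eventually.of_forall fun z => ser_nonneg hw z) hc.continuous.aestronglyMeasurable,
      lintegral_ser hw ha]
    exact inv_mul_cancel₀ (ENNReal.toReal_pos (mass_ne_zero hw) (mass_ne_top hr hp hw ha)).ne'

/-- The configuration attached to the data. -/
lemma exists_cfg : ∃ (c : Cfg) (H : Set ℝ) (f g : E → ℝ), 0 < volume H ∧
    (∀ a0 ∈ Icc (-1 : ℝ) 0, ∀ b0 ∈ Icc (1 : ℝ) 2, ∀ t ∈ H, ∀ δ : ℝ, 0 < δ →
        ∃ k, |c.a k - a0| < δ ∧ |c.b k - b0| < δ ∧ |c.h k - t| < δ ∧ c.r k < δ) ∧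
    IsDensity f ∧ IsDensity g ∧ dens f = c.mu ∧ dens g = c.nu := by
  obtain ⟨H, hHc, hH01, hHv, hHQ⟩ := exists_H
  have hHne : H.Nonempty := nonempty_of_measure_ne_zero hHv.ne'
  obtain ⟨a, b, h, r, ha, hb, hr0, hr1, hh, hdisj, hd⟩ := exists_data hHc hH01 hHne hHQ
  let x : ℕ → E := fun k => !₂[a k, h k]
  let y : ℕ → E := fun k => !₂[b k, h k]
  let ρ : ℕ → {ρ : ℝ // 0 < ρ} := fun k => ⟨r k, hr0 k⟩
  have hx : ∀ k, ‖x k‖ ≤ 4 := by
    intro k
    rw [EuclideanSpace.norm_eq, Fin.sum_univ_two, Real.sqrt_le_left (by norm_num)]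
    have h1 := ha k
    have h2 := abs_le.1 (hh k)
    simp only [x, Real.norm_eq_abs, sq_abs, Matrix.cons_val_zero, Matrix.cons_val_one]
    nlinarith [h1.1, h1.2, h2.1, h2.2]
  have hy : ∀ k, ‖y k‖ ≤ 4 := by
    intro k
    rw [EuclideanSpace.norm_eq, Fin.sum_univ_two, Real.sqrt_le_left (by norm_num)]
    have h1 := hb k
    have h2 := abs_le.1 (hh k)
    simp only [y, Real.norm_eq_abs, sq_abs, Matrix.cons_val_zero, Matrix.cons_val_one]
    nlinarith [h1.1, h1.2, h2.1, h2.2]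
  choose e1 he1 h1 using fun k => weight_exists (bump_shift_smooth (ρ k) (x k))
    (bump_shift_compact (ρ k) (x k)) k
  choose e2 he2 h2 using fun k => weight_exists (bump_shift_smooth (ρ k) (y k))
    (bump_shift_compact (ρ k) (y k)) k
  let w : ℕ → ℝ := fun k => min (e1 k) (e2 k)
  have hw : ∀ k, 0 < w k := fun k => lt_min (he1 k) (he2 k)
  have hax : Adm ρ w x := fun n i hi z => h1 n (w n) (hw n).le (min_le_left _ _) i hi z
  have hay : Adm ρ w y := fun n i hi z => h2 n (w n) (hw n).le (min_le_right _ _) i hi z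
  have hm : mass ρ w ≠ ⊤ := mass_ne_top hr1 hx hw hax
  have hmp : 0 < (mass ρ w).toReal⁻¹ :=
    inv_pos.2 (ENNReal.toReal_pos (mass_ne_zero hw) hm)
  let c : Cfg :=
    { a := a, b := b, h := h, r := r, F := prof ρ w, ha := ha, hb := hb, hr0 := hr0, hr1 := hr1,
      hh := hh, hdisj := hdisj
      hF := fun k => by
        unfold prof
        exact (((bump (ρ k)).continuous.measurable.const_mul _).const_mul _).ennreal_ofReal
      hFsupp := fun k z => by
        unfold prof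
        rw [Ne, ENNReal.ofReal_eq_zero, not_le]
        have hs : z ∈ Function.support (bump (ρ k)) ↔ z ∈ Metric.ball (0 : E) (r k) := by
          rw [(bump (ρ k)).support_eq]; rfl
        rw [Metric.mem_ball, dist_zero_right, Function.mem_support] at hs
        rw [← hs, mul_pos_iff_of_pos_left hmp, mul_pos_iff_of_pos_left (hw k)]
        exact ⟨fun h => h.ne', fun h => lt_of_le_of_ne (bump (ρ k)).nonneg (Ne.symm h)⟩
      hsum := prof_sum hw hm }
  refine ⟨c, H, fun z => (mass ρ w).toReal⁻¹ * ser ρ w x z,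
    fun z => (mass ρ w).toReal⁻¹ * ser ρ w y z, hHv, hd, isDensity_ser hr1 hx hw hax,
    isDensity_ser hr1 hy hw hay, dens_ser hw hax, dens_ser hw hay⟩

/-- There are two smooth compactly supported probability densities on the plane all of whose
optimal couplings for the cost `|x - y|` have a support of Hausdorff dimension at least `3`. -/
theorem result : ∃ f g : E → ℝ, IsDensity f ∧ IsDensity g ∧
    (∃ π, IsOptimal (dens f) (dens g) π) ∧
    ∀ π, IsOptimal (dens f) (dens g) π → 3 ≤ dimH (supp π) := by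
  obtain ⟨c, H, f, g, hHv, hd, hf, hg, h1, h2⟩ := exists_cfg
  refine ⟨f, g, hf, hg, ?_, ?_⟩
  · rw [h1, h2]
    exact ⟨c.pi0, c.pi0_optimal⟩
  · rw [h1, h2]
    exact fun π hπ => c.dim_supp hHv hd hπ

end Pool.Agent.Results.MP_e338b6_an.LargeSupport
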